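import Mathlib

/-!
The Archimedean measure and the Archimedean path.
-/

namespace Pool.Agent.SN8

open MeasureTheory Set Filter Topology
open scoped ENNReal Real

/-- The density `1 / (2 π √(1 - x² - y²))` on the open unit disk, `0` elsewhere. -/
noncomputable def archDensity (p : ℝ × ℝ) : ℝ≥0∞ :=
  if p.1 ^ 2 + p.2 ^ 2 < 1 then ENNReal.ofReal (1 / (2 * π * √(1 - p.1 ^ 2 - p.2 ^ 2))) else 0

/-- The measure `Arch_{1/2}`. -/
noncomputable def archHalf : Measure (ℝ × ℝ) := volume.withDensity archDensity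

/-- The measure `Arch_t`: the law of `(X, X cos (π t) + Y sin (π t))` for `(X, Y) ~ Arch_{1/2}`. -/
noncomputable def arch (t : ℝ) : Measure (ℝ × ℝ) :=
  archHalf.map (fun p => (p.1, p.1 * Real.cos (π * t) + p.2 * Real.sin (π * t)))

lemma measurable_archDensity : Measurable archDensity := by
  unfold archDensity
  refine Measurable.ite ?_ ?_ measurable_const
  · exact measurableSet_lt (by fun_prop) measurable_const
  · fun_prop

lemma measurable_archMap (t : ℝ) :
    Measurable (fun p : ℝ × ℝ => (p.1, p.1 * Real.cos (π * t) + p.2 * Real.sin (π * t))) := by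
  fun_prop

lemma integral_r : ∫ r in (0:ℝ)..1, r / √(1 - r ^ 2) = 1 ∧
    IntervalIntegrable (fun r : ℝ => r / √(1 - r ^ 2)) volume 0 1 := by
  have hderiv : ∀ r ∈ Ioo (0:ℝ) 1, HasDerivAt (fun r : ℝ => - √(1 - r ^ 2)) (r / √(1 - r ^ 2)) r := by
    intro r hr
    have h1 : 1 - r ^ 2 ≠ 0 := by nlinarith [hr.1, hr.2]
    have h2 : HasDerivAt (fun r : ℝ => 1 - r ^ 2) (-(2 * r)) r := by
      have := (hasDerivAt_pow 2 r).const_sub 1
      simpa using this
    have h3 := (h2.sqrt h1).neg
    have h4 : √(1 - r ^ 2) ≠ 0 := by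
      rw [Real.sqrt_ne_zero']
      nlinarith [hr.1, hr.2]
    have h5 : r / √(1 - r ^ 2) = -(-(2 * r) / (2 * √(1 - r ^ 2))) := by
      field_simp
    rw [h5]
    exact h3
  have hcont : ContinuousOn (fun r : ℝ => - √(1 - r ^ 2)) (Icc 0 1) := by fun_prop
  have hint : IntervalIntegrable (fun r : ℝ => r / √(1 - r ^ 2)) volume 0 1 := by
    apply intervalIntegral.intervalIntegrable_deriv_of_nonneg (g := fun r : ℝ => - √(1 - r ^ 2))
    · rw [uIcc_of_le (by norm_num : (0:ℝ) ≤ 1)]; exact hcont
    · intro x hx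
      rw [min_eq_left (by norm_num : (0:ℝ) ≤ 1), max_eq_right (by norm_num : (0:ℝ) ≤ 1)] at hx
      exact hderiv x hx
    · intro x hx
      rw [min_eq_left (by norm_num : (0:ℝ) ≤ 1), max_eq_right (by norm_num : (0:ℝ) ≤ 1)] at hx
      exact div_nonneg hx.1.le (Real.sqrt_nonneg _)
  refine ⟨?_, hint⟩
  rw [intervalIntegral.integral_eq_sub_of_hasDerivAt_of_le (by norm_num) hcont hderiv hint]
  norm_num

lemma lintegral_r : ∫⁻ r in Ioo (0:ℝ) 1, ENNReal.ofReal (r / √(1 - r ^ 2)) = 1 := by
  rw [← ofReal_integral_eq_lintegral_ofReal]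
  · rw [← integral_Ioc_eq_integral_Ioo, ← intervalIntegral.integral_of_le (by norm_num),
      integral_r.1, ENNReal.ofReal_one]
  · have := integral_r.2
    rw [intervalIntegrable_iff_integrableOn_Ioo_of_le (by norm_num)] at this
    exact this
  · filter_upwards [ae_restrict_mem measurableSet_Ioo] with r hr
    exact div_nonneg hr.1.le (Real.sqrt_nonneg _)

lemma archHalf_univ : archHalf univ = 1 := by
  rw [archHalf, withDensity_apply _ MeasurableSet.univ, Measure.restrict_univ,
    ← lintegral_comp_polarCoord_symm]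
  have h1 : ∀ p ∈ polarCoord.target, ENNReal.ofReal p.1 • archDensity (polarCoord.symm p) =
      (Ioo (0:ℝ) 1).indicator (fun r => ENNReal.ofReal (r / √(1 - r ^ 2))) p.1 *
        ENNReal.ofReal (1 / (2 * π)) := by
    rintro ⟨r, θ⟩ hp
    rw [polarCoord_target] at hp
    have hr : 0 < r := hp.1
    have e : (r * Real.cos θ) ^ 2 + (r * Real.sin θ) ^ 2 = r ^ 2 := by
      nlinarith [Real.cos_sq_add_sin_sq θ]
    have e2 : 1 - (r * Real.cos θ) ^ 2 - (r * Real.sin θ) ^ 2 = 1 - r ^ 2 := by linarith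
    simp only [polarCoord_symm_apply, archDensity, e, e2, smul_eq_mul]
    by_cases h : r < 1
    · have h2 : r ^ 2 < 1 := by nlinarith
      rw [if_pos h2, indicator_of_mem (show r ∈ Ioo (0:ℝ) 1 from ⟨hr, h⟩),
        ← ENNReal.ofReal_mul hr.le, ← ENNReal.ofReal_mul (by positivity)]
      congr 1
      field_simp
    · have h2 : ¬ r ^ 2 < 1 := by nlinarith
      rw [if_neg h2, indicator_of_notMem (by simp [h])]
      simp
  rw [setLIntegral_congr_fun (by rw [polarCoord_target]; exact measurableSet_Ioi.prod measurableSet_Ioo) h1]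
  rw [polarCoord_target, Measure.volume_eq_prod, setLIntegral_prod]
  · simp only [lintegral_const, Measure.restrict_apply MeasurableSet.univ, univ_inter,
      Real.volume_Ioo]
    have h3 : ENNReal.ofReal (1 / (2 * π)) * ENNReal.ofReal (π - -π) = 1 := by
      rw [← ENNReal.ofReal_mul (by positivity)]
      rw [show 1 / (2 * π) * (π - -π) = 1 by field_simp; ring]
      exact ENNReal.ofReal_one
    simp only [mul_assoc, h3, mul_one]
    rw [lintegral_indicator measurableSet_Ioo, Measure.restrict_restrict measurableSet_Ioo]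
    have h4 : Ioo (0:ℝ) 1 ∩ Ioi 0 = Ioo 0 1 := by
      ext x; simp only [mem_inter_iff, mem_Ioo, mem_Ioi]; tauto
    rw [h4, lintegral_r]
  · apply Measurable.aemeasurable
    refine Measurable.mul ?_ measurable_const
    refine Measurable.comp (g := (Ioo (0:ℝ) 1).indicator
      (fun r => ENNReal.ofReal (r / √(1 - r ^ 2)))) ?_ measurable_fst
    exact Measurable.indicator (by fun_prop) measurableSet_Ioo

instance : IsProbabilityMeasure archHalf := ⟨archHalf_univ⟩

instance (t : ℝ) : IsProbabilityMeasure (arch t) :=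
  Measure.isProbabilityMeasure_map (measurable_archMap t).aemeasurable

/-- the elliptical support of `Arch_t` -/
lemma arch_eq_zero {t : ℝ} {F : Set (ℝ × ℝ)} (hF : MeasurableSet F)
    (h : ∀ x z : ℝ, (x, z) ∈ F →
      ¬ (x ^ 2 + z ^ 2 - 2 * x * z * Real.cos (π * t) ≤ 1 - Real.cos (π * t) ^ 2)) :
    arch t F = 0 := by
  rw [arch, Measure.map_apply (measurable_archMap t) hF, archHalf,
    withDensity_apply _ (measurable_archMap t hF)]
  rw [setLIntegral_eq_zero_iff (measurable_archMap t hF) measurable_archDensity]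
  refine Eventually.of_forall ?_
  rintro ⟨x, y⟩ hp
  simp only [mem_preimage] at hp
  have h1 := h _ _ hp
  unfold archDensity
  rw [if_neg]
  simp only
  intro h2
  apply h1
  have h3 := Real.sin_sq_add_cos_sq (π * t)
  have h4 : 0 ≤ Real.sin (π * t) ^ 2 := sq_nonneg _
  nlinarith [mul_nonneg h4 (by linarith : 0 ≤ 1 - x ^ 2 - y ^ 2)]

end Pool.Agent.SN8
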