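import Mathlib

/-!
Words in adjacent transpositions of the positive integers: every permutation `v` of `{1,...,n}`
with `inv n v` inversions has at least `(inv n v)! / (2 n) ^ (inv n v)` words of length `inv n v`.
-/

namespace Pool.Agent.SN8

/-- The adjacent transposition `(k, k+1)`, as a permutation of the natural numbers. -/
def sw (k : ℕ) : Equiv.Perm ℕ := Equiv.swap k (k + 1)

lemma sw_apply (k x : ℕ) : sw k x = if x = k then k + 1 else if x = k + 1 then k else x := by
  simp [sw, Equiv.swap_apply_def]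

lemma sw_mul_self (k : ℕ) : sw k * sw k = 1 := Equiv.swap_mul_self _ _

lemma sw_sw (k x : ℕ) : sw k (sw k x) = x := by
  have := congrArg (fun f : Equiv.Perm ℕ => f x) (sw_mul_self k)
  simpa using this

lemma sw_inv (k : ℕ) : (sw k)⁻¹ = sw k := Equiv.swap_inv _ _

/-- The product `s_{l₁} s_{l₂} ⋯` -/
def P (l : List ℕ) : Equiv.Perm ℕ := (l.map sw).prod

@[simp] lemma P_nil : P [] = 1 := rfl
@[simp] lemma P_cons (k : ℕ) (l : List ℕ) : P (k :: l) = sw k * P l := by simp [P]
lemma P_append (l m : List ℕ) : P (l ++ m) = P l * P m := by simp [P]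
lemma P_singleton (k : ℕ) : P [k] = sw k := by simp [P]

/-- fixes everything outside `{1,...,n}` -/
def Supp (n : ℕ) (v : Equiv.Perm ℕ) : Prop := ∀ x, (x = 0 ∨ n < x) → v x = x

lemma Supp.one (n : ℕ) : Supp n 1 := fun _ _ => rfl

lemma Supp.mul {n : ℕ} {a b : Equiv.Perm ℕ} (ha : Supp n a) (hb : Supp n b) : Supp n (a * b) := by
  intro x hx
  rw [Equiv.Perm.mul_apply, hb x hx, ha x hx]

lemma Supp.inv {n : ℕ} {a : Equiv.Perm ℕ} (ha : Supp n a) : Supp n a⁻¹ := by
  intro x hx
  rw [Equiv.Perm.inv_eq_iff_eq, ha x hx]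

lemma Supp.sw {n k : ℕ} (h1 : 1 ≤ k) (h2 : k + 1 ≤ n) : Supp n (sw k) := by
  intro x hx
  rw [sw_apply]
  split_ifs <;> omega

lemma Supp.mem {n : ℕ} {v : Equiv.Perm ℕ} (hv : Supp n v) {x : ℕ} (h1 : 1 ≤ x) (h2 : x ≤ n) :
    1 ≤ v x ∧ v x ≤ n := by
  by_contra h
  have h3 : v x = 0 ∨ n < v x := by omega
  have h4 := hv _ h3
  have h5 := v.injective h4
  omega

lemma Supp.P {n : ℕ} {l : List ℕ} (hl : ∀ j ∈ l, 1 ≤ j ∧ j + 1 ≤ n) : Supp n (P l) := by
  induction l with
  | nil => exact Supp.one n
  | cons k l ih =>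
    rw [P_cons]
    refine Supp.mul (Supp.sw (hl k (by simp)).1 (hl k (by simp)).2) (ih fun j hj => hl j (by simp [hj]))

/-- the set of inversions -/
def invSet (n : ℕ) (v : Equiv.Perm ℕ) : Finset (ℕ × ℕ) :=
  (Finset.Icc 1 n ×ˢ Finset.Icc 1 n).filter (fun p => p.1 < p.2 ∧ v p.2 < v p.1)

/-- the number of inversions -/
def inv (n : ℕ) (v : Equiv.Perm ℕ) : ℕ := (invSet n v).card

lemma mem_invSet {n : ℕ} {v : Equiv.Perm ℕ} {i j : ℕ} :
    (i, j) ∈ invSet n v ↔ 1 ≤ i ∧ j ≤ n ∧ i < j ∧ v j < v i := by
  simp only [invSet, Finset.mem_filter, Finset.mem_product, Finset.mem_Icc]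
  constructor
  · rintro ⟨⟨⟨a, b⟩, c, d⟩, e, f⟩; exact ⟨a, d, e, f⟩
  · rintro ⟨a, b, c, d⟩; exact ⟨⟨⟨a, by omega⟩, by omega, b⟩, c, d⟩

lemma inv_one (n : ℕ) : inv n 1 = 0 := by
  rw [inv, Finset.card_eq_zero, Finset.eq_empty_iff_forall_notMem]
  rintro ⟨i, j⟩ h
  rw [mem_invSet] at h
  simp at h
  omega

lemma sw_lt {k i j : ℕ} (h : i < j) (h2 : ¬ (i = k ∧ j = k + 1)) : sw k i < sw k j := by
  rw [sw_apply, sw_apply]
  split_ifs <;> omega

lemma inv_mul_sw {n k : ℕ} (v : Equiv.Perm ℕ) (h1 : 1 ≤ k) (h2 : k + 1 ≤ n)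
    (h : v (k + 1) < v k) : inv n (v * sw k) + 1 = inv n v := by
  have hmem : (k, k + 1) ∈ invSet n v := by
    rw [mem_invSet]; exact ⟨h1, h2, by omega, h⟩
  have hcard : (invSet n (v * sw k)).card = ((invSet n v).erase (k, k + 1)).card := by
    have hsk : sw k k = k + 1 := by rw [sw_apply]; simp
    have hsk1 : sw k (k + 1) = k := by rw [sw_apply]; simp
    have hrange : ∀ x, 1 ≤ x → x ≤ n → 1 ≤ sw k x ∧ sw k x ≤ n := fun x a b =>
      (Supp.sw h1 h2).mem a b
    refine Finset.card_bij' (fun p _ => (sw k p.1, sw k p.2)) (fun p _ => (sw k p.1, sw k p.2))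
      ?_ ?_ ?_ ?_
    · rintro ⟨i, j⟩ hp
      rw [mem_invSet] at hp
      obtain ⟨a, b, c, d⟩ := hp
      simp only [Equiv.Perm.mul_apply] at d
      have hne : ¬ (i = k ∧ j = k + 1) := by
        rintro ⟨rfl, rfl⟩
        rw [hsk, hsk1] at d
        omega
      have hlt := sw_lt c hne
      simp only [Finset.mem_erase, ne_eq, Prod.mk.injEq, mem_invSet]
      refine ⟨?_, (hrange i a (by omega)).1, (hrange j (by omega) b).2, hlt, d⟩
      rintro ⟨e1, e2⟩
      have e3 : i = k + 1 := by rw [← sw_sw k i, e1, hsk]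
      have e4 : j = k := by rw [← sw_sw k j, e2, hsk1]
      omega
    · rintro ⟨i, j⟩ hp
      simp only [Finset.mem_erase, ne_eq, Prod.mk.injEq, mem_invSet] at hp
      obtain ⟨hne, a, b, c, d⟩ := hp
      have hlt := sw_lt c hne
      simp only [mem_invSet, Equiv.Perm.mul_apply, sw_sw]
      exact ⟨(hrange i a (by omega)).1, (hrange j (by omega) b).2, hlt, d⟩
    · rintro ⟨i, j⟩ _; simp [sw_sw]
    · rintro ⟨i, j⟩ _; simp [sw_sw]
  rw [inv, inv, hcard, Finset.card_erase_of_mem hmem]
  have : 0 < (invSet n v).card := Finset.card_pos.mpr ⟨_, hmem⟩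
  omega

lemma inv_mul_sw_le {n k : ℕ} (v : Equiv.Perm ℕ) (h1 : 1 ≤ k) (h2 : k + 1 ≤ n) :
    inv n (v * sw k) ≤ inv n v + 1 := by
  rcases lt_trichotomy (v (k + 1)) (v k) with h | h | h
  · have := inv_mul_sw v h1 h2 h; omega
  · have := v.injective h; omega
  · have h3 : (v * sw k) (k + 1) < (v * sw k) k := by
      simp only [Equiv.Perm.mul_apply, sw_apply]; simpa using h
    have := inv_mul_sw (v * sw k) h1 h2 h3
    rw [mul_assoc, sw_mul_self, mul_one] at this
    omega

lemma inv_P_le {n : ℕ} (l : List ℕ) (hl : ∀ j ∈ l, 1 ≤ j ∧ j + 1 ≤ n) :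
    inv n (P l) ≤ l.length := by
  induction l using List.reverseRecOn with
  | nil => simp [inv_one]
  | append_singleton l k ih =>
    rw [P_append, P_singleton, List.length_append]
    have h1 := ih (fun j hj => hl j (by simp [hj]))
    have h2 := inv_mul_sw_le (n := n) (P l) (hl k (by simp)).1 (hl k (by simp)).2
    simp only [List.length_singleton]
    omega

lemma inv_succ {m : ℕ} {v : Equiv.Perm ℕ} (hv : Supp m v) : inv (m + 1) v = inv m v := by
  have : invSet (m + 1) v = invSet m v := by
    ext ⟨i, j⟩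
    rw [mem_invSet, mem_invSet]
    constructor
    · rintro ⟨a, b, c, d⟩
      refine ⟨a, ?_, c, d⟩
      by_contra hj
      have hj2 : j = m + 1 := by omega
      have h3 : v j = j := hv j (by omega)
      have h4 := hv.mem a (by omega : i ≤ m)
      omega
    · rintro ⟨a, b, c, d⟩
      exact ⟨a, by omega, c, d⟩
  rw [inv, inv, this]

lemma insertion {m : ℕ} : ∀ (d q : ℕ) (v : Equiv.Perm ℕ), q + d = m + 1 → 1 ≤ q →
    Supp (m + 1) v → v q = m + 1 →
    ∃ (v' : Equiv.Perm ℕ) (s : List ℕ), Supp m v' ∧ s.Pairwise (fun a b => b < a) ∧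
      (∀ a ∈ s, q ≤ a ∧ a ≤ m) ∧ s.length = d ∧ v = v' * P s ∧ inv (m + 1) v = inv m v' + d := by
  intro d
  induction d with
  | zero =>
    intro q v hq h1 hv hvq
    have hq' : q = m + 1 := by omega
    subst hq'
    have hv' : Supp m v := by
      intro x hx
      rcases Nat.lt_or_ge (m + 1) x with h | h
      · exact hv x (Or.inr h)
      · rcases hx with hx | hx
        · exact hv x (Or.inl hx)
        · have : x = m + 1 := by omega
          rw [this, hvq]
    exact ⟨v, [], hv', List.Pairwise.nil, by simp, rfl, by simp, by rw [inv_succ hv']; rfl⟩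
  | succ d ih =>
    intro q v hq h1 hv hvq
    have hlt : v (q + 1) < v q := by
      rw [hvq]
      have h3 := (hv.mem (by omega : 1 ≤ q + 1) (by omega)).2
      rcases Nat.lt_or_ge (v (q + 1)) (m + 1) with h | h
      · exact h
      · have : v (q + 1) = v q := by omega
        have := v.injective this
        omega
    have hinv := inv_mul_sw (n := m + 1) v h1 (by omega) hlt
    have h4 : (v * sw q) (q + 1) = m + 1 := by
      simp only [Equiv.Perm.mul_apply, sw_apply]; simpa using hvq
    obtain ⟨v', s, hs1, hs2, hs3, hs4, hs5, hs6⟩ := ih (q + 1) (v * sw q) (by omega) (by omega)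
      (hv.mul (Supp.sw h1 (by omega))) h4
    refine ⟨v', s ++ [q], hs1, ?_, ?_, by simp [hs4], ?_, by omega⟩
    · rw [List.pairwise_append]
      refine ⟨hs2, List.pairwise_singleton _ _, ?_⟩
      intro a ha b hb
      rw [List.mem_singleton] at hb
      subst hb
      have := (hs3 a ha).1
      omega
    · intro a ha
      rw [List.mem_append, List.mem_singleton] at ha
      rcases ha with ha | ha
      · have := hs3 a ha; omega
      · omega
    · rw [P_append, P_singleton, ← mul_assoc, ← hs5, mul_assoc, sw_mul_self, mul_one]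

/-- The order in which the letters `(segment, index)` of the insertion word appear. -/
def Lex (a b : ℕ × ℕ) : Prop := a.1 < b.1 ∨ (a.1 = b.1 ∧ b.2 < a.2)

lemma exists_word : ∀ (m : ℕ) (v : Equiv.Perm ℕ), Supp m v →
    ∃ l : List (ℕ × ℕ), l.Pairwise Lex ∧ (∀ a ∈ l, 1 ≤ a.2 ∧ a.2 ≤ a.1 ∧ a.1 < m) ∧
      P (l.map Prod.snd) = v ∧ l.length = inv m v := by
  intro m
  induction m with
  | zero =>
    intro v hv
    have : v = 1 := by
      ext x
      exact hv x (by omega)
    subst this
    exact ⟨[], List.Pairwise.nil, by simp, rfl, by rw [inv_one]; rfl⟩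
  | succ m ih =>
    intro v hv
    set q := v⁻¹ (m + 1) with hq
    have hvq : v q = m + 1 := by simp [hq]
    have hq2 := (Supp.inv hv).mem (by omega : 1 ≤ m + 1) (le_refl _)
    obtain ⟨v', s, hs1, hs2, hs3, hs4, hs5, hs6⟩ := insertion (m := m) (m + 1 - q) q v
      (by omega) hq2.1 hv hvq
    obtain ⟨l, hl1, hl2, hl3, hl4⟩ := ih v' hs1
    refine ⟨l ++ s.map (fun k => (m, k)), ?_, ?_, ?_, ?_⟩
    · rw [List.pairwise_append]
      refine ⟨hl1, ?_, ?_⟩
      · rw [List.pairwise_map]
        exact hs2.imp (fun h => Or.inr ⟨rfl, h⟩)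
      · intro a ha b hb
        rw [List.mem_map] at hb
        obtain ⟨k, _, rfl⟩ := hb
        exact Or.inl (hl2 a ha).2.2
    · intro a ha
      rw [List.mem_append, List.mem_map] at ha
      rcases ha with ha | ⟨k, hk, rfl⟩
      · have := hl2 a ha; omega
      · have := hs3 k hk
        simp only
        omega
    · rw [List.map_append, P_append, hl3, List.map_map]
      have : (Prod.snd ∘ fun k => (m, k)) = (id : ℕ → ℕ) := by ext; rfl
      rw [this, List.map_id, hs5]
    · rw [List.length_append, List.length_map, hl4, hs4, hs6]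

/-- letters at distance at least two -/
def Far (j k : ℕ) : Prop := j + 2 ≤ k ∨ k + 2 ≤ j

lemma Far.commute {j k : ℕ} (h : Far j k) : Commute (sw j) (sw k) := by
  rw [Commute, SemiconjBy]
  ext x
  unfold Far at h
  simp only [Equiv.Perm.mul_apply, sw_apply]
  split_ifs <;> omega

/-- the layer of a letter -/
def key (a : ℕ × ℕ) : ℕ := 2 * a.1 - a.2

lemma far_of_lex {a b : ℕ × ℕ} (ha : a.2 ≤ a.1) (hb : b.2 ≤ b.1) (h : Lex a b)
    (hk : ¬ key a < key b) : Far a.2 b.2 := by
  unfold Lex at h
  unfold key at hk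
  unfold Far
  omega

lemma P_filter (l : List (ℕ × ℕ)) (p : ℕ × ℕ → Bool)
    (h : l.Pairwise (fun a b => p a = false → p b = true → Far a.2 b.2)) :
    P (l.map Prod.snd) = P ((l.filter p).map Prod.snd) *
      P ((l.filter (fun a => !p a)).map Prod.snd) := by
  induction l with
  | nil => simp
  | cons a l ih =>
    rw [List.pairwise_cons] at h
    obtain ⟨h1, h2⟩ := h
    have ih' := ih h2
    by_cases hp : p a = true
    · simp only [List.map_cons, P_cons, List.filter_cons, hp, if_true, Bool.not_true]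
      rw [ih', mul_assoc]
      simp
    · have hp' : p a = false := by simpa using hp
      simp only [List.map_cons, P_cons, List.filter_cons, hp', Bool.not_false, if_true]
      have hc : Commute (sw a.2) (P ((l.filter p).map Prod.snd)) := by
        unfold P
        apply Commute.list_prod_right
        intro x hx
        simp only [List.mem_map, List.mem_filter] at hx
        obtain ⟨y, ⟨b, ⟨hb1, hb2⟩, rfl⟩, rfl⟩ := hx
        exact (h1 b hb1 hp' hb2).commute
      rw [ih', ← mul_assoc, hc.eq, mul_assoc]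
      simp

/-- words of length `ℓ` with letters in `{1,...,n-1}` and product `v` -/
def W (n ℓ : ℕ) (v : Equiv.Perm ℕ) : Set (List ℕ) :=
  {l | l.length = ℓ ∧ (∀ j ∈ l, 1 ≤ j ∧ j + 1 ≤ n) ∧ P l = v}

/-- all words of length `ℓ` with letters in `{1,...,n-1}` -/
def A (n ℓ : ℕ) : Set (List ℕ) := {l | l.length = ℓ ∧ ∀ j ∈ l, 1 ≤ j ∧ j + 1 ≤ n}

lemma A_eq (n ℓ : ℕ) : A n ℓ = (fun f : Fin ℓ → ℕ => List.ofFn f) ''
    ((Fintype.piFinset (fun _ : Fin ℓ => Finset.Icc 1 (n - 1)) : Finset (Fin ℓ → ℕ)) :
      Set (Fin ℓ → ℕ)) := by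
  ext l
  simp only [A, Set.mem_ofPred_eq, Set.mem_image, Finset.mem_coe, Fintype.mem_piFinset,
    Finset.mem_Icc]
  constructor
  · rintro ⟨h1, h2⟩
    subst h1
    refine ⟨l.get, fun i => ?_, List.ofFn_get l⟩
    have := h2 (l.get i) (List.get_mem l i)
    omega
  · rintro ⟨f, hf, rfl⟩
    refine ⟨by simp, ?_⟩
    intro j hj
    rw [List.mem_ofFn] at hj
    obtain ⟨i, rfl⟩ := hj
    have := hf i
    omega

lemma A_finite (n ℓ : ℕ) : (A n ℓ).Finite := by
  rw [A_eq]
  exact (Finset.finite_toSet _).image _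

lemma A_ncard_le (n ℓ : ℕ) : (A n ℓ).ncard ≤ (n - 1) ^ ℓ := by
  rw [A_eq]
  refine (Set.ncard_image_le (Finset.finite_toSet _)).trans ?_
  rw [Set.ncard_coe_finset, Fintype.card_piFinset]
  simp

lemma W_subset_A (n ℓ : ℕ) (v : Equiv.Perm ℕ) : W n ℓ v ⊆ A n ℓ := fun _ h => ⟨h.1, h.2.1⟩

lemma W_finite (n ℓ : ℕ) (v : Equiv.Perm ℕ) : (W n ℓ v).Finite :=
  (A_finite n ℓ).subset (W_subset_A n ℓ v)

lemma ncard_append {s t : Set (List ℕ)} {a : ℕ} (hlen : ∀ l ∈ s, l.length = a) :
    ((fun p : List ℕ × List ℕ => p.1 ++ p.2) '' (s ×ˢ t)).ncard = s.ncard * t.ncard := by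
  rw [Set.InjOn.ncard_image, Set.ncard_prod]
  rintro ⟨x, y⟩ ⟨hx, hy⟩ ⟨x', y'⟩ ⟨hx', hy'⟩ h
  simp only at h hx hx'
  have := List.append_inj h (by rw [hlen x hx, hlen x' hx'])
  exact Prod.ext this.1 this.2

lemma W_append_le (n a b : ℕ) (u v : Equiv.Perm ℕ) :
    (W n a u).ncard * (W n b v).ncard ≤ (W n (a + b) (u * v)).ncard := by
  rw [← ncard_append (s := W n a u) (t := W n b v) (fun l hl => hl.1)]
  apply Set.ncard_le_ncard _ (W_finite _ _ _)
  rintro _ ⟨⟨x, y⟩, ⟨hx, hy⟩, rfl⟩
  simp only at hx hy ⊢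
  refine ⟨by rw [List.length_append, hx.1, hy.1], ?_, by rw [P_append, hx.2.2, hy.2.2]⟩
  intro j hj
  rw [List.mem_append] at hj
  rcases hj with hj | hj
  · exact hx.2.1 j hj
  · exact hy.2.1 j hj

lemma block_le (n : ℕ) (b : List ℕ) (hnd : b.Nodup) (hfar : b.Pairwise Far)
    (hb : ∀ j ∈ b, 1 ≤ j ∧ j + 1 ≤ n) :
    b.length.factorial ≤ (W n b.length (P b)).ncard := by
  classical
  have h1 : (b.permutations.toFinset : Set (List ℕ)) ⊆ W n b.length (P b) := by
    intro l hl
    simp only [Finset.mem_coe, List.mem_toFinset, List.mem_permutations] at hl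
    refine ⟨hl.length_eq, fun j hj => hb j (hl.mem_iff.mp hj), ?_⟩
    have hc : (b.map sw).Pairwise Commute := by
      rw [List.pairwise_map]
      exact hfar.imp (fun h => h.commute)
    exact ((hl.symm.map sw).prod_eq' hc).symm
  have h2 := Set.ncard_le_ncard h1 (W_finite _ _ _)
  rw [Set.ncard_coe_finset, List.toFinset_card_of_nodup (List.nodup_permutations _ hnd),
    List.length_permutations] at h2
  exact h2

lemma binom_le (c a b : ℕ) : (a + b).choose a * c ^ a ≤ (c + 1) ^ (a + b) := by
  rw [add_pow]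
  have := Finset.single_le_sum (f := fun m => c ^ m * 1 ^ (a + b - m) * ((a + b).choose m))
    (fun i _ => Nat.zero_le _) (Finset.mem_range.mpr (by omega : a < a + b + 1))
  simp only [one_pow, mul_one] at this
  rw [mul_comm]
  simpa using this

lemma count_layers (n : ℕ) (l : List (ℕ × ℕ)) (hlex : l.Pairwise Lex)
    (hb : ∀ a ∈ l, 1 ≤ a.2 ∧ a.2 ≤ a.1 ∧ a.1 < n) (c : ℕ) :
    (l.filter (fun a => decide (key a < c))).length.factorial ≤
      (W n (l.filter (fun a => decide (key a < c))).length
        (P ((l.filter (fun a => decide (key a < c))).map Prod.snd))).ncard *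
        c ^ (l.filter (fun a => decide (key a < c))).length := by
  induction c with
  | zero =>
    have h0 : l.filter (fun a => decide (key a < 0)) = [] := by
      rw [List.filter_eq_nil_iff]; simp
    rw [h0]
    simp only [List.length_nil, Nat.factorial_zero, List.map_nil, P_nil, pow_zero, mul_one]
    have : (W n 0 1) = {[]} := by
      ext x
      simp only [W, Set.mem_ofPred_eq, Set.mem_singleton_iff]
      constructor
      · rintro ⟨h, _⟩; exact List.eq_nil_of_length_eq_zero h
      · rintro rfl; simp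
    rw [this, Set.ncard_singleton]
  | succ c ih =>
    set lc := l.filter (fun a => decide (key a < c)) with hlc
    set lc1 := l.filter (fun a => decide (key a < c + 1)) with hlc1
    set bc := l.filter (fun a => decide (key a = c)) with hbc
    have hlex' : lc1.Pairwise Lex := hlex.filter _
    have e1 : lc1.filter (fun a => decide (key a < c)) = lc := by
      rw [hlc1, hlc, List.filter_filter]
      congr 1
      ext a
      by_cases h : key a < c
      · have h2 : key a < c + 1 := by omega
        simp [h, h2]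
      · simp [h]
    have e2 : lc1.filter (fun a => !decide (key a < c)) = bc := by
      rw [hlc1, hbc, List.filter_filter]
      congr 1
      ext a
      rw [Bool.eq_iff_iff]
      simp only [Bool.and_eq_true, Bool.not_eq_true', decide_eq_false_iff_not, decide_eq_true_eq]
      omega
    have hP := P_filter lc1 (fun a => decide (key a < c)) (by
      have hmem : ∀ a ∈ lc1, a.2 ≤ a.1 := fun a ha => (hb a (List.mem_of_mem_filter ha)).2.1
      refine List.Pairwise.imp_of_mem ?_ hlex'
      intro a b ha hb' h h1 h2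
      apply far_of_lex (hmem a ha) (hmem b hb') h
      simp only [decide_eq_false_iff_not, decide_eq_true_eq] at h1 h2
      omega)
    rw [e1, e2] at hP
    have hlen : lc1.length = lc.length + bc.length := by
      have := List.length_eq_length_filter_add (l := lc1) (fun a => decide (key a < c))
      rw [e1, e2] at this
      exact this
    have hfar : (bc.map Prod.snd).Pairwise Far := by
      rw [List.pairwise_map]
      have hmem : ∀ a ∈ bc, a.2 ≤ a.1 := fun a ha => (hb a (List.mem_of_mem_filter ha)).2.1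
      have hkey : ∀ a ∈ bc, key a = c := fun a ha => by
        have := List.of_mem_filter ha
        simpa using this
      refine List.Pairwise.imp_of_mem ?_ (hlex.filter (fun a => decide (key a = c)))
      intro a b ha hb' h
      apply far_of_lex (hmem a ha) (hmem b hb') h
      rw [hkey a ha, hkey b hb']
      omega
    have hnd : (bc.map Prod.snd).Nodup := by
      refine List.Pairwise.imp ?_ hfar
      intro a b h
      unfold Far at h
      omega
    have hblock := block_le n (bc.map Prod.snd) hnd hfar (by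
      intro j hj
      rw [List.mem_map] at hj
      obtain ⟨a, ha, rfl⟩ := hj
      have := hb a (List.mem_of_mem_filter ha)
      omega)
    rw [List.length_map] at hblock
    have happ := W_append_le n lc.length bc.length (P (lc.map Prod.snd)) (P (bc.map Prod.snd))
    rw [← hP, ← hlen] at happ
    rw [hlen]
    rw [hlen] at happ
    calc (lc.length + bc.length).factorial
        = (lc.length + bc.length).choose lc.length * lc.length.factorial * bc.length.factorial := by
          rw [← Nat.choose_mul_factorial_mul_factorial (Nat.le_add_right lc.length bc.length)]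
          simp
      _ ≤ (lc.length + bc.length).choose lc.length *
          ((W n lc.length (P (lc.map Prod.snd))).ncard * c ^ lc.length) *
          (W n bc.length (P (bc.map Prod.snd))).ncard := by gcongr
      _ = ((W n lc.length (P (lc.map Prod.snd))).ncard * (W n bc.length (P (bc.map Prod.snd))).ncard) *
          ((lc.length + bc.length).choose lc.length * c ^ lc.length) := by ring
      _ ≤ (W n (lc.length + bc.length) (P (lc1.map Prod.snd))).ncard *
          (c + 1) ^ (lc.length + bc.length) := Nat.mul_le_mul happ (binom_le _ _ _)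

/-- Main lower bound for the number of words. -/
theorem count_words (n : ℕ) (v : Equiv.Perm ℕ) (hv : Supp n v) :
    (inv n v).factorial ≤ (W n (inv n v) v).ncard * (2 * n) ^ (inv n v) := by
  obtain ⟨l, hl1, hl2, hl3, hl4⟩ := exists_word n v hv
  have h := count_layers n l hl1 hl2 (2 * n)
  have e : l.filter (fun a => decide (key a < 2 * n)) = l := by
    rw [List.filter_eq_self]
    intro a ha
    have h2 := hl2 a ha
    have h3 : key a < 2 * n := by unfold key; omega
    simpa using h3
  rw [e, hl3, hl4] at h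
  exact h

end Pool.Agent.SN8
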