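import Pool.Agent.SN8.Net
import Pool.Agent.SN8.ArchM

/-!
The permutation matrix measures, and a deviation that has positive probability.
-/

namespace Pool.Agent.SN8

open MeasureTheory Set Filter Topology
open scoped ENNReal Real

/-- The global trajectory `σ_G(x, t) = 2 σ(x, N t) / n - 1`. -/
noncomputable def glob (n : ℕ) (k : List ℕ) (x : ℕ) (t : ℝ) : ℝ :=
  2 * (place (k.take ⌊(n.choose 2 : ℝ) * t⌋₊) x : ℝ) / n - 1

/-- The permutation matrix measure `η^n_t` of the network `k`. -/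
noncomputable def eta (n : ℕ) (k : List ℕ) (t : ℝ) : Measure (ℝ × ℝ) :=
  (n : ℝ≥0∞)⁻¹ • ∑ i ∈ Finset.Icc 1 n, Measure.dirac (glob n k i 0, glob n k i t)

/-- The event that `η^n_t` is outside `U` for some `t ∈ [0,1]`. -/
def Leaves (n : ℕ) (U : Set (ProbabilityMeasure (ℝ × ℝ))) (k : List ℕ) : Prop :=
  ∃ t ∈ Icc (0:ℝ) 1, ∀ μ ∈ U, (μ : Measure (ℝ × ℝ)) ≠ eta n k t

lemma eta_congr {n : ℕ} {k k' : List ℕ} {t : ℝ}
    (h : P (k.take ⌊(n.choose 2 : ℝ) * t⌋₊) = P (k'.take ⌊(n.choose 2 : ℝ) * t⌋₊)) :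
    eta n k t = eta n k' t := by
  unfold eta
  congr 1
  apply Finset.sum_congr rfl
  intro i _
  congr 2
  · simp [glob]
  · simp only [glob, place_eq, h]

theorem dichotomy {n : ℕ} (hn : 2 ≤ n) (U : Set (ProbabilityMeasure (ℝ × ℝ))) :
    prob n (Leaves n U) = 0 ∨ ((8 * Real.exp 1) ^ (n.choose 2))⁻¹ ≤ prob n (Leaves n U) := by
  by_cases h : ({k | IsNetwork n k ∧ Leaves n U k} : Set (List ℕ)) = ∅
  · left
    rw [prob, h]
    simp
  · right
    obtain ⟨k, hk, t, ht, hU⟩ := Set.nonempty_iff_ne_empty.mpr h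
    set s := ⌊(n.choose 2 : ℝ) * t⌋₊ with hs
    have hsN : s ≤ n.choose 2 := by
      rw [hs]
      apply Nat.floor_le_of_le
      have := ht.2
      have h0 : (0:ℝ) ≤ n.choose 2 := Nat.cast_nonneg _
      nlinarith
    have hte := (time_eq hk hsN).1
    have hsupp : Supp n (P (k.take s)) :=
      Supp.P fun j hj => hk.2.1 j (List.mem_of_mem_take hj)
    apply prob_ge hn hsupp
    intro k' hk' hP
    refine ⟨t, ht, fun μ hμ => ?_⟩
    rw [hte] at hP
    rw [eta_congr (k' := k) hP]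
    exact hU μ hμ

/-- the reversal of the middle block `(a, n - a]` -/
def blk (n a : ℕ) : Equiv.Perm ℕ :=
  Function.Involutive.toPerm (fun x => if a < x ∧ x + a ≤ n then n + 1 - x else x) (by
    intro x
    simp only
    split_ifs <;> omega)

lemma blk_apply (n a x : ℕ) : blk n a x = if a < x ∧ x + a ≤ n then n + 1 - x else x := rfl

lemma blk_blk (n a x : ℕ) : blk n a (blk n a x) = x := by
  simp only [blk_apply]
  split_ifs <;> omega

lemma blk_inv (n a : ℕ) : (blk n a)⁻¹ = blk n a := by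
  rw [inv_eq_iff_mul_eq_one]
  ext x
  simp [blk_blk]

lemma blk_supp (n a : ℕ) : Supp n (blk n a) := by
  intro x hx
  rw [blk_apply]
  split_ifs <;> omega

lemma eta_apply_ge {n : ℕ} {k : List ℕ} {t : ℝ} (hn : 1 ≤ n) {F : Set (ℝ × ℝ)}
    (hF : MeasurableSet F) (a b : ℕ) (hab : a ≤ b) (ha : 1 ≤ a) (hb : b ≤ n)
    (h : ∀ i, a ≤ i → i ≤ b → (glob n k i 0, glob n k i t) ∈ F)
    (hc : (n:ℝ) / 100 ≤ (b:ℝ) - a) : (1 / 100 : ℝ≥0∞) ≤ eta n k t F := by
  have hsum : ((b - a : ℕ) : ℝ≥0∞) ≤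
      (∑ i ∈ Finset.Icc 1 n, Measure.dirac (glob n k i 0, glob n k i t)) F := by
    rw [Measure.finsetSum_apply]
    calc ((b - a : ℕ) : ℝ≥0∞) ≤ ((Finset.Icc a b).card : ℝ≥0∞) := by
          rw [Nat.card_Icc]; norm_cast; omega
      _ = ∑ i ∈ Finset.Icc a b, (1 : ℝ≥0∞) := by simp
      _ = ∑ i ∈ Finset.Icc a b, Measure.dirac (glob n k i 0, glob n k i t) F := by
          apply Finset.sum_congr rfl
          intro i hi
          rw [Finset.mem_Icc] at hi
          rw [Measure.dirac_apply' _ hF, indicator_of_mem (h i hi.1 hi.2)]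
          rfl
      _ ≤ _ := by
          apply Finset.sum_le_sum_of_subset
          intro i hi
          rw [Finset.mem_Icc] at hi ⊢
          omega
  rw [eta, Measure.smul_apply, smul_eq_mul]
  have hn0 : (n : ℝ≥0∞) ≠ 0 := by
    simp only [ne_eq, Nat.cast_eq_zero]; omega
  have hnt : (n : ℝ≥0∞) ≠ ⊤ := ENNReal.natCast_ne_top n
  refine le_trans ?_ (mul_le_mul_right hsum _)
  rw [← ENNReal.mul_le_mul_iff_right hn0 hnt, ← mul_assoc, ENNReal.mul_inv_cancel hn0 hnt, one_mul]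
  have h1 : ((n:ℝ≥0∞)) * (1 / 100) = ENNReal.ofReal ((n:ℝ) * (1 / 100)) := by
    rw [ENNReal.ofReal_mul (Nat.cast_nonneg n), ENNReal.ofReal_natCast]
    congr 1
    rw [ENNReal.ofReal_div_of_pos (by norm_num)]
    simp
  rw [h1, ← ENNReal.ofReal_natCast]
  apply ENNReal.ofReal_le_ofReal
  rw [Nat.cast_sub hab]
  linarith

lemma isOpen_lt {F : Set (ℝ × ℝ)} (hF : IsClosed F) (ε : ℝ≥0∞) :
    IsOpen {μ : ProbabilityMeasure (ℝ × ℝ) | (μ : Measure (ℝ × ℝ)) F < ε} := by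
  rw [isOpen_iff_eventually]
  intro μ hμ
  have h1 : Tendsto (fun ν : ProbabilityMeasure (ℝ × ℝ) => ν) (𝓝 μ) (𝓝 μ) := tendsto_id
  have h2 := ProbabilityMeasure.limsup_measure_closed_le_of_tendsto h1 hF
  have h3 : limsup (fun ν : ProbabilityMeasure (ℝ × ℝ) => (ν : Measure (ℝ × ℝ)) F) (𝓝 μ) < ε :=
    lt_of_le_of_lt h2 hμ
  exact eventually_lt_of_limsup_lt h3

/-- the first test rectangle, near the corner `(1,1)` -/
def F1 : Set (ℝ × ℝ) := Icc (19/20) 1 ×ˢ Icc (19/20) 1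

/-- the second test rectangle, around `(1/2, -1/2)` -/
def F2 : Set (ℝ × ℝ) := Icc (2/5) (3/5) ×ˢ Icc (-(3/5)) (-(2/5))

/-- an open set which contains the Archimedean path -/
def U0 : Set (ProbabilityMeasure (ℝ × ℝ)) :=
  {μ | (μ : Measure (ℝ × ℝ)) F1 < 1/100} ∪ {μ | (μ : Measure (ℝ × ℝ)) F2 < 1/100}

lemma isOpen_U0 : IsOpen U0 :=
  (isOpen_lt (isClosed_Icc.prod isClosed_Icc) _).union
    (isOpen_lt (isClosed_Icc.prod isClosed_Icc) _)

lemma arch_mem_U0 (t : ℝ) : (⟨arch t, inferInstance⟩ : ProbabilityMeasure (ℝ × ℝ)) ∈ U0 := by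
  set c := Real.cos (π * t) with hc
  have hc1 : c ≤ 1 := Real.cos_le_one _
  have hc2 : -1 ≤ c := Real.neg_one_le_cos _
  by_cases h : c ≤ 7/10
  · left
    show arch t F1 < 1/100
    rw [arch_eq_zero (F := F1) (measurableSet_Icc.prod measurableSet_Icc)]
    · norm_num
    · rintro x z ⟨⟨hx1, hx2⟩, ⟨hz1, hz2⟩⟩ h2
      simp only at hx1 hx2 hz1 hz2
      rw [← hc] at h2
      have h3 : (19/20) * (19/20) ≤ x * z := by nlinarith
      nlinarith [sq_nonneg (x - z), mul_nonneg (by linarith : 0 ≤ 1 - c)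
        (by linarith : 0 ≤ x * z - (19/20) * (19/20))]
  · right
    show arch t F2 < 1/100
    rw [arch_eq_zero (F := F2) (measurableSet_Icc.prod measurableSet_Icc)]
    · norm_num
    · rintro x z ⟨⟨hx1, hx2⟩, ⟨hz1, hz2⟩⟩ h2
      simp only at hx1 hx2 hz1 hz2
      rw [← hc] at h2
      push Not at h
      have h3 : (4/25) ≤ - (x * z) := by nlinarith
      have h4 : (4/25) ≤ x ^ 2 := by nlinarith
      have h5 : (4/25) ≤ z ^ 2 := by nlinarith
      nlinarith [mul_nonneg (by linarith : 0 ≤ c) (by linarith : 0 ≤ - (x * z) - 4/25)]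

lemma leaves_of_blk {n : ℕ} (hn : 100 ≤ n) {k : List ℕ}
    (hP : P (k.take (inv n (blk n (n / 10)))) = blk n (n / 10)) : Leaves n U0 k := by
  set s := inv n (blk n (n / 10)) with hs
  have hsN : s ≤ n.choose 2 := by
    have := inv_add_inv (blk_supp n (n / 10))
    omega
  have hNpos : 0 < n.choose 2 := Nat.choose_pos (by omega)
  have hNr : (0:ℝ) < (n.choose 2 : ℝ) := by exact_mod_cast hNpos
  have hnr : (100:ℝ) ≤ n := by exact_mod_cast hn
  have hfl : ⌊(n.choose 2 : ℝ) * ((s:ℝ) / (n.choose 2 : ℝ))⌋₊ = s := by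
    rw [mul_div_cancel₀ _ hNr.ne', Nat.floor_natCast]
  have hg0 : ∀ i, glob n k i 0 = 2 * (i:ℝ) / n - 1 := by
    intro i; simp [glob, place]
  have hgt : ∀ i, glob n k i ((s:ℝ) / (n.choose 2 : ℝ)) = 2 * (blk n (n / 10) i : ℝ) / n - 1 := by
    intro i
    rw [glob, hfl, place_eq, hP, blk_inv]
  refine ⟨(s:ℝ) / (n.choose 2 : ℝ), ⟨by positivity, ?_⟩, ?_⟩
  · rw [div_le_one hNr]; exact_mod_cast hsN
  have hn0 : (0:ℝ) < n := by linarith
  have hm1 : (1 / 100 : ℝ≥0∞) ≤ eta n k ((s:ℝ) / (n.choose 2 : ℝ)) F1 := by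
    have hdiv : (39 * n) / 40 + 1 ≤ n := by omega
    apply eta_apply_ge (by omega) (measurableSet_Icc.prod measurableSet_Icc)
      ((39 * n) / 40 + 1) n hdiv (by omega) le_rfl
    · intro i hi1 hi2
      rw [hg0, hgt]
      have hb : blk n (n / 10) i = i := by
        rw [blk_apply, if_neg]; omega
      rw [hb]
      have h1 : (39:ℝ) * n ≤ 40 * i := by
        have : 39 * n ≤ 40 * i := by omega
        exact_mod_cast this
      have h2 : (i:ℝ) ≤ n := by exact_mod_cast hi2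
      have h3 : (19/20 : ℝ) ≤ 2 * (i:ℝ) / n - 1 := by
        rw [le_sub_iff_add_le, le_div_iff₀ hn0]; linarith
      have h4 : 2 * (i:ℝ) / n - 1 ≤ 1 := by
        rw [sub_le_iff_le_add, div_le_iff₀ hn0]; linarith
      exact ⟨⟨h3, h4⟩, ⟨h3, h4⟩⟩
    · have h1 : (((39 * n) / 40 : ℕ) : ℝ) ≤ (39 * n : ℕ) / 40 := Nat.cast_div_le
      push_cast at h1 ⊢
      linarith
  have hm2 : (1 / 100 : ℝ≥0∞) ≤ eta n k ((s:ℝ) / (n.choose 2 : ℝ)) F2 := by
    have hdiv : (71 * n) / 100 + 1 ≤ (79 * n) / 100 := by omega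
    apply eta_apply_ge (by omega) (measurableSet_Icc.prod measurableSet_Icc)
      ((71 * n) / 100 + 1) ((79 * n) / 100) hdiv (by omega) (by omega)
    · intro i hi1 hi2
      rw [hg0, hgt]
      have hb : blk n (n / 10) i = n + 1 - i := by
        rw [blk_apply, if_pos]; omega
      rw [hb, Nat.cast_sub (by omega)]
      push_cast
      have h1 : (71:ℝ) * n ≤ 100 * i := by
        have : 71 * n ≤ 100 * i := by omega
        exact_mod_cast this
      have h2 : 100 * (i:ℝ) ≤ 79 * n := by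
        have : 100 * i ≤ 79 * n := by omega
        exact_mod_cast this
      refine ⟨⟨?_, ?_⟩, ⟨?_, ?_⟩⟩
      · show (2/5 : ℝ) ≤ 2 * (i:ℝ) / n - 1
        rw [le_sub_iff_add_le, le_div_iff₀ hn0]; linarith
      · show 2 * (i:ℝ) / n - 1 ≤ 3/5
        rw [sub_le_iff_le_add, div_le_iff₀ hn0]; linarith
      · show (-(3/5) : ℝ) ≤ 2 * ((n:ℝ) + 1 - i) / n - 1
        rw [le_sub_iff_add_le, le_div_iff₀ hn0]; linarith
      · show 2 * ((n:ℝ) + 1 - i) / n - 1 ≤ -(2/5)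
        rw [sub_le_iff_le_add, div_le_iff₀ hn0]; linarith
    · have h1 : (((71 * n) / 100 : ℕ) : ℝ) ≤ (71 * n : ℕ) / 100 := Nat.cast_div_le
      have h2 : ((79 * n : ℕ) : ℝ) < 100 * ((((79 * n) / 100 : ℕ) : ℝ) + 1) := by
        have : 79 * n < 100 * ((79 * n) / 100 + 1) := by omega
        exact_mod_cast this
      push_cast at h1 h2 ⊢
      linarith
  intro μ hμ heq
  rcases hμ with h | h
  · rw [mem_ofPred_eq, heq] at h
    exact absurd hm1 (not_le.mpr h)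
  · rw [mem_ofPred_eq, heq] at h
    exact absurd hm2 (not_le.mpr h)

end Pool.Agent.SN8
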