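import Pool.Agent.SN8.Count

/-!
Sorting networks as words; the number of networks through a given permutation.
-/

namespace Pool.Agent.SN8

open MeasureTheory
open scoped ENNReal

/-- The position, after performing the adjacent transpositions `(k₁, k₁+1)`, `(k₂, k₂+1)`, ... in
this order, of the particle which starts at position `x`. -/
def place (k : List ℕ) (x : ℕ) : ℕ := k.foldl (fun p j => Equiv.swap j (j + 1) p) x

lemma place_eq (k : List ℕ) (x : ℕ) : place k x = (P k)⁻¹ x := by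
  induction k generalizing x with
  | nil => rfl
  | cons j l ih =>
    have : place (j :: l) x = place l (sw j x) := rfl
    rw [this, ih, P_cons, mul_inv_rev, Equiv.Perm.mul_apply, sw_inv]

/-- The reversal of `{1,...,n}`. -/
def rev (n : ℕ) : Equiv.Perm ℕ :=
  Function.Involutive.toPerm (fun x => if 1 ≤ x ∧ x ≤ n then n + 1 - x else x) (by
    intro x
    simp only
    split_ifs <;> omega)

lemma rev_apply (n x : ℕ) : rev n x = if 1 ≤ x ∧ x ≤ n then n + 1 - x else x := rfl

lemma rev_rev (n x : ℕ) : rev n (rev n x) = x := by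
  simp only [rev_apply]
  split_ifs <;> omega

lemma rev_inv (n : ℕ) : (rev n)⁻¹ = rev n := by
  rw [inv_eq_iff_mul_eq_one]
  ext x
  simp [rev_rev]

lemma rev_supp (n : ℕ) : Supp n (rev n) := by
  intro x hx
  rw [rev_apply]
  split_ifs <;> omega

/-- Sorting networks of size `n`. -/
def IsNetwork (n : ℕ) (k : List ℕ) : Prop :=
  k.length = n.choose 2 ∧ (∀ j ∈ k, 1 ≤ j ∧ j + 1 ≤ n) ∧
    ∀ x, 1 ≤ x → x ≤ n → place k x = n + 1 - x

lemma isNetwork_iff (n : ℕ) (k : List ℕ) : IsNetwork n k ↔ k ∈ W n (n.choose 2) (rev n) := by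
  constructor
  · rintro ⟨h1, h2, h3⟩
    refine ⟨h1, h2, ?_⟩
    have : (P k)⁻¹ = rev n := by
      ext x
      by_cases hx : 1 ≤ x ∧ x ≤ n
      · rw [← place_eq, h3 x hx.1 hx.2, rev_apply, if_pos hx]
      · rw [(Supp.P h2).inv x (by omega), rev_apply, if_neg hx]
    rw [← rev_inv, ← this, inv_inv]
  · rintro ⟨h1, h2, h3⟩
    refine ⟨h1, h2, fun x hx1 hx2 => ?_⟩
    rw [place_eq, h3, rev_inv, rev_apply, if_pos ⟨hx1, hx2⟩]

/-- pairs `i < j` -/
def pairs (n : ℕ) : Finset (ℕ × ℕ) :=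
  (Finset.Icc 1 n ×ˢ Finset.Icc 1 n).filter (fun p => p.1 < p.2)

lemma mem_pairs {n i j : ℕ} : (i, j) ∈ pairs n ↔ 1 ≤ i ∧ j ≤ n ∧ i < j := by
  simp only [pairs, Finset.mem_filter, Finset.mem_product, Finset.mem_Icc]
  omega

lemma card_pairs (n : ℕ) : (pairs n).card = n.choose 2 := by
  induction n with
  | zero => rfl
  | succ n ih =>
    have h : pairs (n + 1) = pairs n ∪ (Finset.Icc 1 n).image (fun i => (i, n + 1)) := by
      ext ⟨i, j⟩
      simp only [Finset.mem_union, mem_pairs, Finset.mem_image, Finset.mem_Icc, Prod.mk.injEq]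
      constructor
      · rintro ⟨a, b, c⟩
        by_cases hj : j = n + 1
        · right; exact ⟨i, ⟨a, by omega⟩, rfl, hj.symm⟩
        · left; exact ⟨a, by omega, c⟩
      · rintro (⟨a, b, c⟩ | ⟨i', ⟨a, b⟩, rfl, rfl⟩)
        · exact ⟨a, by omega, c⟩
        · exact ⟨a, le_refl _, by omega⟩
    rw [h, Finset.card_union_of_disjoint, ih, Finset.card_image_of_injective, Nat.card_Icc,
      Nat.choose_succ_succ' n 1, Nat.choose_one_right]
    · have : n.choose (1 + 1) = n.choose 2 := rfl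
      omega
    · intro a b hab
      exact (Prod.mk.inj hab).1
    · rw [Finset.disjoint_left]
      rintro ⟨i, j⟩ h1 h2
      simp only [mem_pairs, Finset.mem_image, Finset.mem_Icc, Prod.mk.injEq] at h1 h2
      obtain ⟨i', _, _, h3⟩ := h2
      omega

lemma inv_add_inv {n : ℕ} {v : Equiv.Perm ℕ} (hv : Supp n v) :
    inv n v + inv n (v⁻¹ * rev n) = n.choose 2 := by
  classical
  set C : Finset (ℕ × ℕ) := (pairs n).filter (fun p => v p.1 < v p.2) with hC
  have hmemC : ∀ i j, (i, j) ∈ C ↔ 1 ≤ i ∧ j ≤ n ∧ i < j ∧ v i < v j := by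
    intro i j
    rw [hC, Finset.mem_filter, mem_pairs]
    tauto
  have h1 : (invSet n (v⁻¹ * rev n)).card = C.card := by
    refine Finset.card_bij' (fun p _ => (v⁻¹ (rev n p.2), v⁻¹ (rev n p.1)))
      (fun p _ => (rev n (v p.2), rev n (v p.1))) ?_ ?_ ?_ ?_
    · rintro ⟨i, j⟩ hp
      rw [mem_invSet] at hp
      obtain ⟨a, b, c, d⟩ := hp
      simp only [Equiv.Perm.mul_apply] at d
      have hi := (rev_supp n).mem a (by omega)
      have hj := (rev_supp n).mem (by omega : 1 ≤ j) b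
      have hi' := hv.inv.mem hi.1 hi.2
      have hj' := hv.inv.mem hj.1 hj.2
      rw [hmemC]
      refine ⟨hj'.1, hi'.2, d, ?_⟩
      have e1 : v (v⁻¹ (rev n j)) = rev n j := by simp
      have e2 : v (v⁻¹ (rev n i)) = rev n i := by simp
      simp only [e1, e2]
      rw [rev_apply, rev_apply, if_pos ⟨by omega, b⟩, if_pos ⟨a, by omega⟩]
      omega
    · rintro ⟨i, j⟩ hp
      rw [hmemC] at hp
      obtain ⟨a, b, c, d⟩ := hp
      have hi := hv.mem a (by omega)
      have hj := hv.mem (by omega : 1 ≤ j) b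
      have hi' := (rev_supp n).mem hi.1 hi.2
      have hj' := (rev_supp n).mem hj.1 hj.2
      rw [mem_invSet]
      refine ⟨hj'.1, hi'.2, ?_, ?_⟩
      · show rev n (v j) < rev n (v i)
        rw [rev_apply, rev_apply, if_pos hj, if_pos hi]
        omega
      · have e1 : (v⁻¹ * rev n) (rev n (v i)) = i := by simp [rev_rev]
        have e2 : (v⁻¹ * rev n) (rev n (v j)) = j := by simp [rev_rev]
        show (v⁻¹ * rev n) (rev n (v i)) < (v⁻¹ * rev n) (rev n (v j))
        rw [e1, e2]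
        exact c
    · rintro ⟨i, j⟩ _; simp [rev_rev]
    · rintro ⟨i, j⟩ _; simp [rev_rev]
  have h2 : (pairs n).filter (fun p => ¬ (v p.1 < v p.2)) = invSet n v := by
    ext ⟨i, j⟩
    rw [Finset.mem_filter, mem_pairs, mem_invSet]
    constructor
    · rintro ⟨⟨a, b, c⟩, d⟩
      refine ⟨a, b, c, ?_⟩
      have : v i ≠ v j := fun h => by have := v.injective h; omega
      simp only at d
      omega
    · rintro ⟨a, b, c, d⟩
      refine ⟨⟨a, b, c⟩, ?_⟩
      simp only
      omega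
  have h3 := Finset.card_filter_add_card_filter_not (s := pairs n) (fun p => v p.1 < v p.2)
  rw [h2, card_pairs] at h3
  rw [inv, inv, h1, add_comm]
  exact h3

/-- If a network passes through `v` at time `s` then `s` is the number of inversions of `v`. -/
lemma time_eq {n s : ℕ} {k : List ℕ} (hk : IsNetwork n k) (hs : s ≤ n.choose 2) :
    inv n (P (k.take s)) = s ∧
      inv n ((P (k.take s))⁻¹ * rev n) = n.choose 2 - s := by
  rw [isNetwork_iff] at hk
  obtain ⟨h1, h2, h3⟩ := hk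
  have ht : ∀ j ∈ k.take s, 1 ≤ j ∧ j + 1 ≤ n := fun j hj => h2 j (List.mem_of_mem_take hj)
  have hd : ∀ j ∈ k.drop s, 1 ≤ j ∧ j + 1 ≤ n := fun j hj => h2 j (List.mem_of_mem_drop hj)
  have e : P (k.drop s) = (P (k.take s))⁻¹ * rev n := by
    rw [← h3, eq_inv_mul_iff_mul_eq, ← P_append, List.take_append_drop]
  have a1 := inv_P_le (n := n) _ ht
  have a2 := inv_P_le (n := n) _ hd
  have a3 := inv_add_inv (Supp.P ht)
  rw [e] at a2
  rw [List.length_take] at a1
  rw [List.length_drop] at a2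
  omega

/-- the real lower bound for the number of words -/
lemma count_real {n : ℕ} (hn : 1 ≤ n) (v : Equiv.Perm ℕ) (hv : Supp n v) :
    ((inv n v).factorial : ℝ) / (2 * n) ^ (inv n v) ≤ ((W n (inv n v) v).ncard : ℝ) := by
  have h := count_words n v hv
  have h' : ((inv n v).factorial : ℝ) ≤ ((W n (inv n v) v).ncard : ℝ) * (2 * n) ^ (inv n v) := by
    exact_mod_cast h
  have hpos : (0:ℝ) < (2 * n) ^ (inv n v) := by
    have : (0:ℝ) < n := by exact_mod_cast hn
    positivity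
  rw [div_le_iff₀ hpos]
  exact h'

lemma factorial_ge (N : ℕ) : ((N:ℝ) / Real.exp 1) ^ N ≤ (N.factorial : ℝ) := by
  have h := Real.pow_div_factorial_le_exp (N : ℝ) (Nat.cast_nonneg N) N
  have hf : (0:ℝ) < N.factorial := by exact_mod_cast Nat.factorial_pos N
  rw [div_le_iff₀ hf] at h
  have he : Real.exp (N:ℝ) = Real.exp 1 ^ N := by rw [← Real.exp_nat_mul, mul_one]
  rw [he] at h
  rw [div_pow, div_le_iff₀ (by positivity)]
  linarith

lemma arith {n s : ℕ} (hn : 2 ≤ n) (hs : s ≤ n.choose 2) :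
    ((8 * Real.exp 1) ^ (n.choose 2))⁻¹ * ((n - 1 : ℕ) : ℝ) ^ (n.choose 2) ≤
      ((s.factorial : ℝ) / (2 * n) ^ s) *
        (((n.choose 2 - s).factorial : ℝ) / (2 * n) ^ (n.choose 2 - s)) := by
  set N := n.choose 2 with hN
  have hn0 : (0:ℝ) < n := by exact_mod_cast (by omega : 0 < n)
  have hn1 : ((n - 1 : ℕ) : ℝ) = (n:ℝ) - 1 := by
    rw [Nat.cast_sub (by omega)]; simp
  have hNr : (N : ℝ) = n * (n - 1) / 2 := by
    rw [hN, Nat.cast_choose_two]
  have hch : (N.factorial : ℝ) ≤ 2 ^ N * ((s.factorial : ℝ) * ((N - s).factorial : ℝ)) := by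
    have h1 : N.choose s * s.factorial * (N - s).factorial = N.factorial :=
      Nat.choose_mul_factorial_mul_factorial hs
    have h2 : N.choose s ≤ 2 ^ N := Nat.choose_le_two_pow N s
    have h3 : N.factorial ≤ 2 ^ N * (s.factorial * (N - s).factorial) := by
      rw [← h1, mul_assoc]
      exact Nat.mul_le_mul_right _ h2
    exact_mod_cast h3
  have hpow : (2 * (n:ℝ)) ^ s * (2 * (n:ℝ)) ^ (N - s) = (2 * (n:ℝ)) ^ N := by
    rw [← pow_add]; congr 1; omega
  have hrhs : ((s.factorial : ℝ) / (2 * n) ^ s) * (((N - s).factorial : ℝ) / (2 * n) ^ (N - s))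
      = ((s.factorial : ℝ) * ((N - s).factorial : ℝ)) / (2 * (n:ℝ)) ^ N := by
    rw [div_mul_div_comm, hpow]
  rw [hrhs, le_div_iff₀ (by positivity)]
  have hfac := factorial_ge N
  have key : ((8 * Real.exp 1) ^ N)⁻¹ * ((n - 1 : ℕ) : ℝ) ^ N * (2 * (n:ℝ)) ^ N * 2 ^ N
      = ((N:ℝ) / Real.exp 1) ^ N := by
    rw [← inv_pow, ← mul_pow, ← mul_pow, ← mul_pow]
    congr 1
    rw [hn1, hNr]
    have : Real.exp 1 ≠ 0 := (Real.exp_pos 1).ne'
    field_simp
    ring
  have h2 : (0:ℝ) < 2 ^ N := by positivity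
  have h3 : (((8 * Real.exp 1) ^ N)⁻¹ * ((n - 1 : ℕ) : ℝ) ^ N * (2 * (n:ℝ)) ^ N) * 2 ^ N ≤
      ((s.factorial : ℝ) * ((N - s).factorial : ℝ)) * 2 ^ N := by
    rw [key]
    calc _ ≤ (N.factorial : ℝ) := hfac
      _ ≤ _ := by rw [mul_comm]; exact hch
  exact le_of_mul_le_mul_right h3 h2

/-- Every permutation `v` has the probability at least `(8 e) ^ (-N)` to be visited; more precisely
the number of networks whose prefix of length `inv n v` has product `v`. -/
lemma through_ge {n : ℕ} (hn : 2 ≤ n) {v : Equiv.Perm ℕ} (hv : Supp n v) :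
    ((8 * Real.exp 1) ^ (n.choose 2))⁻¹ * ((n - 1 : ℕ) : ℝ) ^ (n.choose 2) ≤
      (({k | IsNetwork n k ∧ P (k.take (inv n v)) = v} : Set (List ℕ)).ncard : ℝ) := by
  have hsum := inv_add_inv hv
  have hs : inv n v ≤ n.choose 2 := by omega
  have h1 := arith hn hs
  have hv' : Supp n (v⁻¹ * rev n) := hv.inv.mul (rev_supp n)
  have c1 := count_real (by omega : 1 ≤ n) v hv
  have c2 := count_real (by omega : 1 ≤ n) _ hv'
  have hs2 : inv n (v⁻¹ * rev n) = n.choose 2 - inv n v := by omega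
  rw [hs2] at c2
  refine h1.trans ((mul_le_mul c1 c2 (by positivity) (by positivity)).trans ?_)
  rw [← Nat.cast_mul, ← ncard_append (s := W n (inv n v) v)
    (t := W n (n.choose 2 - inv n v) (v⁻¹ * rev n)) (fun l hl => hl.1)]
  norm_cast
  apply Set.ncard_le_ncard
  · rintro _ ⟨⟨x, y⟩, ⟨hx, hy⟩, rfl⟩
    simp only at hx hy ⊢
    refine ⟨?_, ?_⟩
    · rw [isNetwork_iff]
      refine ⟨by rw [List.length_append, hx.1, hy.1]; omega, ?_, ?_⟩
      · intro j hj
        rw [List.mem_append] at hj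
        rcases hj with hj | hj
        · exact hx.2.1 j hj
        · exact hy.2.1 j hj
      · rw [P_append, hx.2.2, hy.2.2, mul_inv_cancel_left]
    · rw [List.take_append_of_le_length (by rw [hx.1]), ← hx.1, List.take_length, hx.2.2]
  · exact (W_finite n (n.choose 2) (rev n)).subset (fun k hk => (isNetwork_iff n k).mp hk.1)

lemma networks_finite (n : ℕ) : ({k | IsNetwork n k} : Set (List ℕ)).Finite :=
  (W_finite n (n.choose 2) (rev n)).subset (fun k hk => (isNetwork_iff n k).mp hk)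

lemma networks_ncard_le (n : ℕ) :
    ({k | IsNetwork n k} : Set (List ℕ)).ncard ≤ (n - 1) ^ (n.choose 2) := by
  refine (Set.ncard_le_ncard ?_ (A_finite n _)).trans (A_ncard_le n _)
  exact fun k hk => W_subset_A _ _ _ ((isNetwork_iff n k).mp hk)

/-- The probability of an event for the uniform sorting network of size `n`. -/
noncomputable def prob (n : ℕ) (E : List ℕ → Prop) : ℝ :=
  (({k | IsNetwork n k ∧ E k} : Set (List ℕ)).ncard : ℝ) /
    (({k | IsNetwork n k} : Set (List ℕ)).ncard : ℝ)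

lemma prob_ge {n : ℕ} (hn : 2 ≤ n) {v : Equiv.Perm ℕ} (hv : Supp n v) (E : List ℕ → Prop)
    (hE : ∀ k, IsNetwork n k → P (k.take (inv n v)) = v → E k) :
    ((8 * Real.exp 1) ^ (n.choose 2))⁻¹ ≤ prob n E := by
  have h1 := through_ge hn hv
  have h2 : (({k | IsNetwork n k ∧ P (k.take (inv n v)) = v} : Set (List ℕ)).ncard : ℝ) ≤
      (({k | IsNetwork n k ∧ E k} : Set (List ℕ)).ncard : ℝ) := by
    norm_cast
    apply Set.ncard_le_ncard
    · exact fun k hk => ⟨hk.1, hE k hk.1 hk.2⟩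
    · exact (networks_finite n).subset (fun k hk => hk.1)
  have h3 : (({k | IsNetwork n k} : Set (List ℕ)).ncard : ℝ) ≤ ((n - 1 : ℕ) : ℝ) ^ (n.choose 2) := by
    exact_mod_cast networks_ncard_le n
  have h5 : (0:ℝ) < ((n - 1 : ℕ) : ℝ) ^ (n.choose 2) := by
    have : (0:ℝ) < ((n - 1 : ℕ) : ℝ) := by exact_mod_cast (by omega : 0 < n - 1)
    positivity
  have h6 : (0:ℝ) < (({k | IsNetwork n k ∧ E k} : Set (List ℕ)).ncard : ℝ) :=
    lt_of_lt_of_le (by positivity) (h1.trans h2)
  have h7 : (({k | IsNetwork n k ∧ E k} : Set (List ℕ)).ncard : ℝ) ≤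
      (({k | IsNetwork n k} : Set (List ℕ)).ncard : ℝ) := by
    norm_cast
    exact Set.ncard_le_ncard (fun k hk => hk.1) (networks_finite n)
  have h4 : (0:ℝ) < (({k | IsNetwork n k} : Set (List ℕ)).ncard : ℝ) := lt_of_lt_of_le h6 h7
  rw [prob, le_div_iff₀ h4]
  refine le_trans ?_ (h1.trans h2)
  exact mul_le_mul_of_nonneg_left h3 (by positivity)

end Pool.Agent.SN8
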